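import Pool.Agent.D0H99.OD.AllD
import Pool.Agent.D0H99.OD.Thin
import Pool.Agent.D0H99.OD.Eqm
import Pool.Agent.D0H98.OD.Fam
import Pool.Agent.D0H98.OD.Gn2
import Pool.Agent.D0H98.OD.Eq2
import Pool.Agent.D0H49.OD.Cnt
import Pool.Agent.D0H65.OD.Ng
import Pool.Agent.D0H65.OD.Sg
import Pool.Agent.D0H21.OD.Gn
import Pool.Agent.D0H21.OD.Gd
import Pool.Agent.D0H21.OD.Ng2
import Pool.Agent.D0H21.OD.Sg2
import Pool.Agent.D0H6.OD.Ct
import Pool.Agent.D0H6.OD.Ct2
import Pool.Agent.D0H29.OD.Fm2
import Pool.Agent.D0H41.OD.A0
import Pool.Agent.D0H41.OD.A3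
import Pool.Agent.D0H87.OD.A2
import Pool.Agent.D0H69.OD.A4
import Pool.Agent.D0H88.OD.A5
import Pool.Agent.D0H56.OD.Lwa
import Pool.Agent.D0H56.OD.Num
import Pool.Agent.D0H62.OD.Lwb
import Pool.Agent.D0H80.OD.Lwc
import Pool.Agent.D0H22.OD.Avg

/-!
# Ranks of quadratic twists over `F_q(t)`

`k` is a finite field of odd characteristic in which `-1` is a square, and `E` is the elliptic curve
`y ^ 2 = (x - g) (x - a) (x - b)` over `k(t)`, `a ≠ b` in `k`, `g` in `k[t]` of odd degree with `g - a` and
`g - b` irreducible (for instance the Legendre curve `y ^ 2 = x (x - 1) (x - t)`). `E_D` is its quadratic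
twist by `D`. `F` is the distribution function of the probability measure on `0, 1, 2, ...` with weights
proportional to `w_d = ∏_(i=1..d) 2 / (2 ^ i - 1)`, the law of Heath-Brown and Poonen-Rains;
`F(0) > 0.2097`, `F(1) > 0.6291`.

(1) `D = c d_1 ⋯ d_r`, `d_i` different primes of the same even degree `n`, `n → ∞`, then `r → ∞`: the rank
of `E_D(k(t))` is at most `m` for at least `F(m)` of these `D`, for all `m`; the average of `2 ^ (j rank)` is
at most `∏_(i=1..j) (1 + 2 ^ i)` for all `j`, and the average of the rank is at most `1.265`.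

(2) All squarefree twists of even degree, several curves at the same time. For every `ε > 0` and `n`, for
any `n` curves `E_1, ..., E_n` of this family without common finite places of bad reduction, all constants
`c_i ≠ 0` and all bounds `m_i`: for at least `∏ F(m_i) - ε` of all monic squarefree polynomials `D` of even
degree (large) which are prime to the places of bad reduction, the rank of the twist of `E_i` by `c_i D` is
at most `m_i` for all `i`. In particular at least `20.97` percent of these twists of one curve have rank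
`0`, at least `62.91` percent have rank at most `1`, and for a positive proportion the twists of `n` given
curves have rank `0` at the same time.

The proof is an explicit 2-descent. The class of a point in `E_D / 2 E_D` is, modulo the points of order
two, a vector in the kernel of a symmetric matrix `M` over `F_2` of size `2 r`, built from the quadratic
residue symbols of the prime factors of `D`, which are asymptotically independent and uniformly
distributed. The average number of the linearly independent `j`-tuples in the kernel tends to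
`2 ^ (j (j + 1) / 2)` for every `j`, also when the symbols between the prime factors of `D` are fixed (for
almost all choices of these), and the parity of the dimension of the kernel is the parity of the trace of
`M`, which gives the same averages for even and for odd dimensions. These moments determine the law of the
dimension. For factors of odd degree the matrix is perturbed by a fixed symmetric matrix of small rank;
the moments do not change. For (2) the prime factors of small degree of `D` are fixed; the large ones have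
different degrees for almost all `D`, and there are many of them; the symbols with a large prime factor are
still equidistributed, and the moments are the same. The theorem of Mordell-Weil over `k(t)` is proved with
heights.

Joint work: helper99 (descent, equidistribution, moments, assembly), helper65, helper21, helper6, helper98
(linear algebra over `F_2`), helper52 (parity), helper56, helper62, helper80, helper22 (from the moments to
the law), helper41 (Gaussian binomials; equidistribution; pairs of prime factors), helper49 (theorem of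
Mordell-Weil; sets of degrees), helper98, helper29 (unique factorization), helper87, helper69, helper88 (the
prime factors of almost all polynomials).
-/

set_option autoImplicit false
set_option linter.all false

open Polynomial

namespace Pool.Agent.Results.MP_81dc49_nt.FunctionFieldTwists

open scoped Classical

/-- The conditions on the curve `y ^ 2 = (x - g) (x - a) (x - b)`. -/
structure IsMember {k : Type} [Field k] (g : k[X]) (a b : k) : Prop where
  odd_degree : Odd g.natDegree
  ne : a ≠ b
  irreducible_a : Irreducible (g - C a)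
  irreducible_b : Irreducible (g - C b)

/-- The quadratic twist by `D` of `y ^ 2 = (x - g) (x - a) (x - b)` over `k(t)`, that is, the curve
`y ^ 2 = (x - D g) (x - D a) (x - D b)`. -/
noncomputable def twist {k : Type} [Field k] (g : k[X]) (a b : k) (D : k[X]) :
    WeierstrassCurve (RatFunc k) where
  a₁ := 0
  a₂ := -(algebraMap k[X] (RatFunc k) (D * g) + algebraMap k[X] (RatFunc k) (D * C a) +
    algebraMap k[X] (RatFunc k) (D * C b))
  a₃ := 0
  a₄ := algebraMap k[X] (RatFunc k) (D * g) * algebraMap k[X] (RatFunc k) (D * C a) +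
    algebraMap k[X] (RatFunc k) (D * g) * algebraMap k[X] (RatFunc k) (D * C b) +
    algebraMap k[X] (RatFunc k) (D * C a) * algebraMap k[X] (RatFunc k) (D * C b)
  a₆ := -(algebraMap k[X] (RatFunc k) (D * g) * algebraMap k[X] (RatFunc k) (D * C a) *
    algebraMap k[X] (RatFunc k) (D * C b))

/-- The rank of the group of points of the twist by `D`. -/
noncomputable def rank {k : Type} [Field k] (g : k[X]) (a b : k) (D : k[X]) : ℕ :=
  Module.finrank ℤ (twist g a b D).toAffine.Point

/-- The `r`-tuples of different monic irreducible polynomials of degree `n`. -/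
def Tuples (k : Type) [Field k] (r n : ℕ) : Set (Fin r → k[X]) :=
  {d | Function.Injective d ∧ ∀ i, (d i).Monic ∧ Irreducible (d i) ∧ (d i).natDegree = n}

/-- The constant `c` times the product of the `d i`. -/
noncomputable def product {k : Type} [Field k] {r : ℕ} (c : k) (d : Fin r → k[X]) : k[X] :=
  C c * ∏ i, d i

/-- The monic squarefree polynomials of degree `D` which are prime to the places of bad reduction. -/
def Squarefrees {k : Type} [Field k] {n : ℕ} (g : Fin n → k[X]) (a b : Fin n → k) (D : ℕ) : Set k[X] :=
  {f | f.Monic ∧ Squarefree f ∧ f.natDegree = D ∧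
    ∀ i, IsCoprime f ((g i - C (a i)) * (g i - C (b i)))}

/-- `w_d = ∏_(i=1..d) 2 / (2 ^ i - 1)`. -/
noncomputable def weight (d : ℕ) : ℝ := ∏ i ∈ Finset.range d, 2 / ((2 : ℝ) ^ (i + 1) - 1)

/-- The distribution function `F` of the probability measure on `0, 1, 2, ...` with weights proportional
to `w_d`. -/
noncomputable def law (m : ℕ) : ℝ := (∑ d ∈ Finset.range (m + 1), weight d) / ∑' d, weight d

/-- (0) The sum of the weights converges, `F(0) ≥ 0.2097`, `F(1) ≥ 0.6291` and `F(m) → 1`.

(1) For all `ε > 0` and `K` there is an `r₀` such that for all `r ≥ r₀`, for all finite fields `k` of odd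
characteristic in which `-1` is a square and all `N` there is an `n₀` such that for all even `n ≥ n₀`,
for all members `(g, a, b)` of the family with `deg g = N` and all constants `c ≠ 0`: among the `r`-tuples
`d` of different monic irreducible polynomials of degree `n`, the twists by `c d_1 ⋯ d_r` have rank at most
`m` for at least `F(m) - ε` of them, for all `m`; the average of `(2 ^ rank) ^ j` is at most
`∏_(i=1..j) (1 + 2 ^ i) + ε` for all `j ≤ K`; and the average of the rank is at most `1.265 + ε`.

(2) For all `ε > 0`, all finite fields `k` of odd characteristic in which `-1` is a square and all `N`, `n`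
there are `δ > 0` and `D₀` such that for all even `D ≥ D₀`, all members `(g_i, a_i, b_i)`, `i = 1, ..., n`,
of the family with `deg g_i ≤ N` for which the polynomials `(g_i - a_i) (g_i - b_i)` are pairwise coprime,
all constants `c_i ≠ 0` and all bounds `m_i`: there are at least `δ #k ^ D` monic squarefree polynomials `f`
of degree `D` which are prime to all `(g_i - a_i) (g_i - b_i)`, and for at least the part `∏ F(m_i) - ε` of
them the twist of the `i`-th curve by `c_i f` has rank at most `m_i` for all `i`. -/
theorem result :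
    (Summable weight ∧ (2097 / 10000 : ℝ) ≤ law 0 ∧ (6291 / 10000 : ℝ) ≤ law 1 ∧
      Filter.Tendsto law Filter.atTop (nhds 1)) ∧
    (∀ (ε : ℝ), 0 < ε → ∀ K : ℕ, ∃ r₀ : ℕ, ∀ r : ℕ, r₀ ≤ r → ∀ (k : Type) [Field k] [Finite k],
      (2 : k) ≠ 0 → IsSquare (-1 : k) → ∀ N : ℕ, ∃ n₀ : ℕ, ∀ n : ℕ, n₀ ≤ n → Even n →
      ∀ (g : k[X]) (a b : k), IsMember g a b → g.natDegree = N → ∀ c : k, c ≠ 0 →
        (∀ m : ℕ, (law m - ε) * ((Tuples k r n).ncard : ℝ) ≤
          (({d ∈ Tuples k r n | rank g a b (product c d) ≤ m}).ncard : ℝ)) ∧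
        (∀ j ≤ K, ∑ᶠ d ∈ Tuples k r n, ((2 : ℝ) ^ rank g a b (product c d)) ^ j ≤
          (∏ i ∈ Finset.range j, (1 + (2 : ℝ) ^ (i + 1)) + ε) * ((Tuples k r n).ncard : ℝ)) ∧
        ∑ᶠ d ∈ Tuples k r n, (rank g a b (product c d) : ℝ) ≤
          (1265 / 1000 + ε) * ((Tuples k r n).ncard : ℝ)) ∧
    (∀ (ε : ℝ), 0 < ε → ∀ (k : Type) [Field k] [Finite k], (2 : k) ≠ 0 → IsSquare (-1 : k) →
      ∀ N n : ℕ, ∃ δ : ℝ, 0 < δ ∧ ∃ D₀ : ℕ, ∀ D : ℕ, D₀ ≤ D → Even D →
        ∀ (g : Fin n → k[X]) (a b : Fin n → k), (∀ i, IsMember (g i) (a i) (b i)) →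
          (∀ i, (g i).natDegree ≤ N) →
          (Pairwise fun i j => IsCoprime ((g i - C (a i)) * (g i - C (b i)))
            ((g j - C (a j)) * (g j - C (b j)))) →
          ∀ c : Fin n → k, (∀ i, c i ≠ 0) → ∀ m : Fin n → ℕ,
          δ * (Nat.card k : ℝ) ^ D ≤ ((Squarefrees g a b D).ncard : ℝ) ∧
          (∏ i, law (m i) - ε) * ((Squarefrees g a b D).ncard : ℝ) ≤
            (({f ∈ Squarefrees g a b D |
              ∀ i, rank (g i) (a i) (b i) (C (c i) * f) ≤ m i}).ncard : ℝ)) := by
  have hcard : ∀ (k : Type) [Field k] [Finite k], (2 : k) ≠ 0 → 2 ∣ Nat.card k - 1 := by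
    intro k _ _ h2
    letI : Fintype k := Fintype.ofFinite k
    have hq : Fintype.card k % 2 = 1 := by
      apply FiniteField.odd_card_of_char_ne_two
      intro hc
      apply h2
      have := ringChar.Nat.cast_ringChar (R := k)
      rw [hc] at this
      exact_mod_cast this
    rw [Nat.card_eq_fintype_card]
    exact ⟨Fintype.card k / 2, by omega⟩
  have hNG := Pool.Agent.D0H65.OD.t_NG
  have hGN := Pool.Agent.D0H21.OD.t_GN
  have hGD := Pool.Agent.D0H21.OD.t_GD
  have hCT := Pool.Agent.D0H6.OD.t_CT
  have hSG := Pool.Agent.D0H65.OD.t_SG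
  have hIN := Pool.Agent.D0H65.OD.t_IN
  have hNUM := Pool.Agent.D0H56.OD.t_NUM
  have hLAW := Pool.Agent.D0H80.OD.t_LWC Pool.Agent.D0H56.OD.t_LWA Pool.Agent.D0H62.OD.t_LWB
  have hAVG := Pool.Agent.D0H22.OD.t_AVG
  have hCONF := Pool.Agent.D0H99.OD.t_CONF hNG hGN hGD hCT hSG hIN hLAW hNUM
  refine ⟨⟨hNUM.1, hNUM.2.1, hNUM.2.2.1, hNUM.2.2.2.2⟩, ?_, ?_⟩
  · intro ε hε K
    obtain ⟨r0, h0⟩ := Pool.Agent.D0H99.OD.thin hNG hGN hGD hCT hIN hCONF hNUM hAVG hε K
    refine ⟨r0, fun r hr k _ _ h2 h1 N => ?_⟩
    obtain ⟨z, hz⟩ := h1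
    by_cases hN : 2 ∣ N
    · refine ⟨0, fun n _ _ g a b H hg => ?_⟩
      obtain ⟨j, hj⟩ := H.odd_degree
      omega
    · obtain ⟨n0, h3⟩ := Filter.eventually_atTop.1
        (h0 r hr k h2 (hcard k h2) ⟨z, by rw [hz, pow_two]⟩ N hN)
      exact ⟨n0, fun n hn hn2 g a b H hg c hc =>
        h3 n hn hn2.two_dvd g a b hg H.ne H.irreducible_a H.irreducible_b c hc⟩
  · intro ε hε k _ _ h2 h1 N n
    obtain ⟨z, hz⟩ := h1
    have hEQ2 := Pool.Agent.D0H98.OD.t_EQ2 Pool.Agent.D0H99.OD.Eqm.t_EQM
    have hA0 := Pool.Agent.D0H41.OD.t_A0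
    have hAN := Pool.Agent.D0H88.OD.t_A5 hA0 (Pool.Agent.D0H87.OD.t_A2 hA0)
      (Pool.Agent.D0H41.OD.t_A3 hA0) (Pool.Agent.D0H69.OD.t_A4 hA0)
    have hCONFS := Pool.Agent.D0H99.OD.t_CONFS Pool.Agent.D0H21.OD.t_NG2 hGN hGD
      Pool.Agent.D0H98.OD.t_GN2 Pool.Agent.D0H6.OD.t_CT2 Pool.Agent.D0H21.OD.t_SG2 hIN hLAW hNUM
    obtain ⟨δ, h3, D0, h4⟩ := Pool.Agent.D0H99.OD.mainS hCONFS hNUM
      Pool.Agent.D0H49.OD.t_CNT hEQ2 Pool.Agent.D0H98.OD.t_FAM hA0 hAN
      Pool.Agent.D0H29.OD.t_FM2 k h2 (hcard k h2) ⟨z, by rw [hz, pow_two]⟩ N n hε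
    refine ⟨δ, h3, D0, fun D hD hD2 g a b H hg hcop c hc m => ?_⟩
    have h7 := h4 D hD hD2.two_dvd
    exact h7 g a b (fun i => by
      obtain ⟨j, hj⟩ := (H i).odd_degree
      omega) hg (fun i => (H i).ne) (fun i => (H i).irreducible_a) (fun i => (H i).irreducible_b)
      (fun i j x y hx hy h => by
        by_contra hij
        have hc := hcop hij
        have e1 : g i - C x ∣ (g i - C (a i)) * (g i - C (b i)) := by
          rcases hx with rfl | rfl
          · exact dvd_mul_right _ _
          · exact dvd_mul_left _ _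
        have e2 : g j - C y ∣ (g j - C (a j)) * (g j - C (b j)) := by
          rcases hy with rfl | rfl
          · exact dvd_mul_right _ _
          · exact dvd_mul_left _ _
        have e3 : Irreducible (g i - C x) := by
          rcases hx with rfl | rfl
          · exact (H i).irreducible_a
          · exact (H i).irreducible_b
        exact e3.not_isUnit (hc.isUnit_of_dvd' e1 (h.dvd.trans e2))) c hc m

end Pool.Agent.Results.MP_81dc49_nt.FunctionFieldTwists
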