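import Pool.Agent.D0H10.Q5.AvI
import Pool.Agent.D0H98.Q5.LA2

/-!
# The ranks in the family of the quartic twists of `y² = x³ - x` over `ℚ(i)`

`K = ℚ(i)`, `E_D : y² = x³ + D x`, and `D` runs through the elements of `𝓞 K = ℤ[i]` of one of the two
kinds, ordered by the norm:

* `D` is squarefree and `D = i` modulo `2` (one third of all the squarefree `D`);
* `D = 2 Δ` with `Δ` squarefree and `Δ = 1` modulo `2 + 2 i`.

Let `prob r = ∏_{j ≥ 0} (1 - 2^{-(2 j + 1)}) / ((2 - 1) (4 - 1) ⋯ (2 ^ r - 1))`. In the whole family and in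
each of the two kinds:

* the lower proportion of the `D` for which the rank of `E_D(K)` over `ℤ` is at most `2 R` is at least
  `prob 0 + ⋯ + prob R`, for every `R`: at least `41.94` percent have rank `0`, at least `83.88` percent
  have rank at most `2` (at most one over `ℤ[i]`), at least `97.86` percent have rank at most `4`, and the
  upper proportion of the `D` with rank greater than `2 R` is at most `3 / 2 ^ ((R + 1) (R + 2) / 2)`;
* for at least `41.94` percent of the `D` the group `E_D(K)` is finite and `L(E_D / K, 1) ≠ 0`, so the rank is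
  the order of vanishing;
* the average rank is less than `1.53` (less than `0.765` over `ℤ[i]`).

For the first kind the same is true with one third of the proportions in ALL the squarefree `D`.

The proof: the Selmer group of the endomorphism `1 + i` is given by the kernel of a symmetric matrix of
quadratic residue symbols of the prime factors of `D`; the law of the dimension `r` of the kernel is
`prob r` (large sieve and random symmetric completions), the average of `2 ^ r` tends to `2` (bilinear sums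
and mean values of multiplicative functions, `Pool/Agent/D0H10/Q5/Av*.lean`), hence the average of `r`
tends to `∑ r prob r < 0.765`; the rank is at most `2 r`, and for `r = 0` the central value is a unit at the
prime above two (project Q4).

Joint work: helper10 (descent, averages, assembly), helper98 (random symmetric completions), helper34
(the sum of the limits), helper45 (the large sieve engine), helper43 (central values for the first kind),
and the modules of project Q4 by helper2, helper15, helper42, helper49, helper52, helper54, helper69,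
helper76, helper77, helper84, helper92.
-/

set_option autoImplicit false

namespace Pool.Agent.Results.MP_81dc49_nt.QuarticTwistRanks

open NumberField WeierstrassCurve
open scoped Classical

/-- The curve `E_D : y² = x³ + D x`. -/
def curve {F : Type} [Field F] (D : F) : WeierstrassCurve F := ⟨0, 0, 0, D, 0⟩

/-- The rank of `E_D(F)` over `ℤ`. -/
noncomputable def rank {F : Type} [Field F] (D : F) : ℕ :=
  Module.finrank ℤ (curve D).toAffine.Point

/-- The rank part of the conjecture of Birch and Swinnerton-Dyer for `W` over `F`, with rank `0`: `W` is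
an elliptic curve, `W(F)` is finite, and the `L`-series of `W` continues analytically from
`Re s > 3 / 2` to a connected open set that contains `1`, where its order of vanishing is equal to the
rank of `W(F)`. -/
def RankZero {F : Type} [Field F] [NumberField F] (W : WeierstrassCurve F) : Prop :=
  W.IsElliptic ∧ Finite W.toAffine.Point ∧
  ∃ (U : Set ℂ) (L : ℂ → ℂ),
    IsOpen U ∧ IsConnected U ∧ {s : ℂ | (3 / 2 : ℝ) < s.re} ⊆ U ∧ (1 : ℂ) ∈ U ∧
    AnalyticOnNhd ℂ L U ∧ (∀ s : ℂ, (3 / 2 : ℝ) < s.re → L s = W.LSeries s) ∧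
    (∀ r : ℕ, r < Module.finrank ℤ W.toAffine.Point → iteratedDeriv r L 1 = 0) ∧
    iteratedDeriv (Module.finrank ℤ W.toAffine.Point) L 1 ≠ 0

variable {K : Type} [Field K] [NumberField K]

/-- `D` is squarefree and `D = i` modulo `2` for a square root `i` of `-1`. -/
def OddImaginary (D : 𝓞 K) : Prop := Squarefree D ∧ ∃ i : 𝓞 K, i ^ 2 = -1 ∧ 2 ∣ D - i

/-- `D = 2 Δ`, `Δ` is squarefree and `Δ = 1` modulo `2 + 2 i` for a square root `i` of `-1`. -/
def TwicePrimary (D : 𝓞 K) : Prop :=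
  ∃ Δ : 𝓞 K, Squarefree Δ ∧ (∃ i : 𝓞 K, i ^ 2 = -1 ∧ 2 + 2 * i ∣ Δ - 1) ∧ D = 2 * Δ

/-- The family. -/
def InFamily (D : 𝓞 K) : Prop := OddImaginary D ∨ TwicePrimary D

/-- The proportion of the `D` with the property `Q` among the `D` of norm at most `X` with the property
`P`. -/
noncomputable def proportion (P Q : 𝓞 K → Prop) (X : ℕ) : ℝ :=
  ({D : 𝓞 K | Algebra.norm ℤ D ≤ X ∧ P D ∧ Q D}.ncard : ℝ) /
    ({D : 𝓞 K | Algebra.norm ℤ D ≤ X ∧ P D}.ncard : ℝ)

/-- The average rank of the `E_D(K)` over `ℤ` for the `D` of norm at most `X` with the property `P`. -/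
noncomputable def averageRank (P : 𝓞 K → Prop) (X : ℕ) : ℝ :=
  (∑ᶠ D ∈ {D : 𝓞 K | Algebra.norm ℤ D ≤ X ∧ P D}, (rank (D : K) : ℝ)) /
    ({D : 𝓞 K | Algebra.norm ℤ D ≤ X ∧ P D}.ncard : ℝ)

/-- `∏_{j ≥ 0} (1 - 2^{-(2 j + 1)}) / ((2 - 1) (4 - 1) ⋯ (2 ^ r - 1))`. -/
noncomputable def prob (r : ℕ) : ℝ :=
  (∏' j : ℕ, (1 - (1 / 2 : ℝ) ^ (2 * j + 1))) / ∏ j ∈ Finset.range r, ((2 : ℝ) ^ (j + 1) - 1)

theorem result (K : Type) [Field K] [NumberField K] [IsCyclotomicExtension {4} ℚ K] :
    Filter.Tendsto (proportion (K := K) Squarefree OddImaginary) Filter.atTop (nhds (1 / 3)) ∧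
    (∀ P ∈ ({InFamily, OddImaginary, TwicePrimary} : Set (𝓞 K → Prop)),
      (∀ R : ℕ, ∀ a : ℝ, a < ∑ r ∈ Finset.range (R + 1), prob r →
        ∀ᶠ X : ℕ in Filter.atTop, a < proportion P (fun D => rank (D : K) ≤ 2 * R) X) ∧
      (∀ a : ℝ, a < prob 0 →
        ∀ᶠ X : ℕ in Filter.atTop, a < proportion P (fun D => RankZero (curve (D : K))) X) ∧
      (∀ᶠ X : ℕ in Filter.atTop, averageRank P X < 1.53)) ∧
    (∀ R : ℕ, ∀ a : ℝ, a < 1 / 3 * ∑ r ∈ Finset.range (R + 1), prob r →
      ∀ᶠ X : ℕ in Filter.atTop,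
        a < proportion Squarefree (fun D : 𝓞 K => OddImaginary D ∧ rank (D : K) ≤ 2 * R) X) ∧
    (∀ a : ℝ, a < 1 / 3 * prob 0 →
      ∀ᶠ X : ℕ in Filter.atTop,
        a < proportion Squarefree (fun D : 𝓞 K => OddImaginary D ∧ RankZero (curve (D : K))) X) ∧
    (∀ R : ℕ, 1 - 3 / 2 ^ ((R + 1) * (R + 2) / 2) ≤ ∑ r ∈ Finset.range (R + 1), prob r) ∧
    (0.4194 ≤ prob 0 ∧ 0.8388 ≤ ∑ r ∈ Finset.range 2, prob r ∧
      0.9786 ≤ ∑ r ∈ Finset.range 3, prob r) := by
  obtain ⟨h1, h2, h3⟩ := Pool.Agent.D0H10.Q5.finRank Pool.Agent.D0H98.Q5.la2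
    Pool.Agent.D0H34.Q5.sum1 K
  have hset : ∀ (X : ℕ) (T : 𝓞 K → Prop),
      {D : 𝓞 K | Algebra.norm ℤ D ≤ X ∧ Squarefree D ∧ (OddImaginary D ∧ T D)} =
      {D : 𝓞 K | Algebra.norm ℤ D ≤ X ∧ OddImaginary D ∧ T D} := by
    intro X T
    ext D
    constructor
    · rintro ⟨a1, -, a2, a3⟩
      exact ⟨a1, a2, a3⟩
    · rintro ⟨a1, a2, a3⟩
      exact ⟨a1, a2.1, a2, a3⟩
  have h0 := Pool.Agent.D0H10.Q5.third Pool.Agent.D0H98.Q5.la2 K
  have e0 : proportion (K := K) Squarefree OddImaginary = fun X : ℕ =>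
      ({D : 𝓞 K | Algebra.norm ℤ D ≤ X ∧ OddImaginary D}.ncard : ℝ) /
      ({D : 𝓞 K | Algebra.norm ℤ D ≤ X ∧ Squarefree D}.ncard : ℝ) := by
    funext X
    unfold proportion
    congr 3
    ext D
    exact ⟨fun h => ⟨h.1, h.2.2⟩, fun h => ⟨h.1, h.2.1, h.2⟩⟩
  obtain ⟨s1, s2, s3, -⟩ := Pool.Agent.D0H10.Q5.sum_vals
  have hc := Pool.Agent.D0H10.Q5.cc_ge
  refine ⟨?_, fun P hP => ?_, fun R a ha => ?_, fun a ha => ?_, fun R => ?_, ?_, ?_, ?_⟩
  · rw [e0]
    exact h0
  · rcases hP with rfl | rfl | rfl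
    · exact h1 _ (Or.inl rfl)
    · exact h1 _ (Or.inr (Or.inl rfl))
    · exact h1 _ (Or.inr (Or.inr rfl))
  · filter_upwards [h2 R a ha] with X hX
    unfold proportion
    rw [hset]
    exact hX
  · filter_upwards [h3 a ha] with X hX
    unfold proportion
    rw [hset]
    exact hX
  · have h4 := Pool.Agent.D0H10.Q5.tail_le Pool.Agent.D0H34.Q5.sum1 (R + 1)
    have h5 : (1 : ℝ) - ∑ r ∈ Finset.range (R + 1), prob r ≤ 3 / 2 ^ ((R + 1) * (R + 2) / 2) := h4
    linarith
  · have h4 : Pool.Agent.D0H10.Q5.prob 0 = Pool.Agent.D0H10.Q5.cc := by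
      rw [← s1]; simp
    show (0.4194 : ℝ) ≤ Pool.Agent.D0H10.Q5.prob 0
    rw [h4]
    exact hc
  · show (0.8388 : ℝ) ≤ ∑ r ∈ Finset.range 2, Pool.Agent.D0H10.Q5.prob r
    rw [s2]
    linarith
  · show (0.9786 : ℝ) ≤ ∑ r ∈ Finset.range 3, Pool.Agent.D0H10.Q5.prob r
    rw [s3]
    linarith

end Pool.Agent.Results.MP_81dc49_nt.QuarticTwistRanks
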