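import Mathlib
import Pool.Agent.D0H69.JT.Multi

/-!
# Rank zero over all the fields generated by cube roots, for a positive proportion of all the cubic twists

`K` is the field of the third roots of unity, `E_D : y² + D y = x³`, and `D` runs through ALL the cube-free
elements of `𝓞 K` that have a prime divisor different from `√-3`, ordered by the norm: every cubic twist of
`y² + y = x³`, except for finitely many, is isomorphic to `E_D` for one of the pairs `{D, -D}`.
Let `c = ∏_{i ≥ 0} (1 - 3^{-(2 i + 1)}) = 0.6390...`.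

Theorem.  Let `F_1, …, F_n` be ANY number fields, each of them generated over `K` by cube roots of elements of
`K` (a finite abelian extension of `K` with a group of exponent `3`; `K` itself is allowed), and let
`u_1, …, u_n` be any elements of `K*`.  For at least the proportion `c ^ ([F_1 : K] + … + [F_n : K])` of the
`D`, and also of the `D` divisible exactly `a` times by `√-3`, for each `a = 0, 1, 2`, ALL the ranks
`rk E_{u_1 D}(F_1), …, rk E_{u_n D}(F_n)` are zero.

For `n = 1`, `u_1 = 1`: over every global field `k = F` of this kind at least the proportion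
`c ^ [F : K] > 0` of the curves `E_D` has rank `0`.  For `F_1 = … = F_n = K`: any `n` twists of `E_D` have
rank `0` simultaneously with lower proportion at least `c ^ n`; the corresponding proportion of the vanishing
of the Selmer groups is exactly `c ^ n` (`MP_a3f657_nt.JointLawOfAllTwists`).

The proof.  For `U = K* ∩ F*³` modulo `K*³`, a group of order `[F : K]`, the group `E_{u D}(F)` is finite if all
the `E_{u v D}(K)`, `v` in `U`, are finite; the joint law of the `3^∞`-Selmer groups of these curves (project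
JT of helper69, helper22, helper23, helper52, helper87, helper98) gives the proportion.
-/

set_option autoImplicit false

namespace Pool.Agent.Results.MP_81dc49_nt.RanksOverKummerExtensions

open NumberField
open scoped Classical

/-- The curve `E_D : y² + D y = x³`. -/
def curve {F : Type} [Field F] (D : F) : WeierstrassCurve F := ⟨0, 0, D, 0, 0⟩

variable {K : Type} [Field K] [NumberField K]

/-- `D` is cube-free and does not divide `3`: it has a prime divisor different from `√-3`. -/
def InFamily (D : 𝓞 K) : Prop := ¬ D ∣ 3 ∧ ∀ x : 𝓞 K, x ^ 3 ∣ D → IsUnit x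

/-- `D` is divisible exactly `a` times by `√-3`. -/
def ExactlyDivisible (a : ℕ) (D : 𝓞 K) : Prop :=
  ∃ l : 𝓞 K, l ^ 2 = -3 ∧ l ^ a ∣ D ∧ ¬ l ^ (a + 1) ∣ D

/-- The number field `F` is generated over `K` by cube roots of elements of `K`. -/
def GeneratedByCubeRoots (K F : Type) [Field K] [Field F] [Algebra K F] : Prop :=
  ∃ S : Set F, (∀ x ∈ S, ∃ w : K, x ^ 3 = algebraMap K F w) ∧ IntermediateField.adjoin K S = ⊤

/-- The group of points of the curve `E_x`, `x` in `K`, over the extension `F` of `K` is finite. -/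
def RankZeroOver (F : Type) [Field F] [Algebra K F] (x : K) : Prop :=
  Finite (curve (algebraMap K F x)).toAffine.Point

/-- The proportion of the `D` with the property `Q` among the `D` of the family with the property `P` and
norm at most `X`. -/
noncomputable def proportion (P Q : 𝓞 K → Prop) (X : ℕ) : ℝ :=
  ({D : 𝓞 K | Algebra.norm ℤ D ≤ X ∧ InFamily D ∧ P D ∧ Q D}.ncard : ℝ) /
    ({D : 𝓞 K | Algebra.norm ℤ D ≤ X ∧ InFamily D ∧ P D}.ncard : ℝ)

/-- `∏_{i ≥ 0} (1 - 3^{-(2 i + 1)})`. -/
noncomputable def c : ℝ := ∏' i : ℕ, (1 - (1 / 3 : ℝ) ^ (2 * i + 1))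

theorem result (K : Type) [Field K] [NumberField K] [IsCyclotomicExtension {3} ℚ K] :
    (∃ b : ℝ, 0 < b ∧ ∃ X₀ : ℕ, ∀ X : ℕ, X₀ ≤ X →
      b * X ≤ ({D : 𝓞 K | Algebra.norm ℤ D ≤ X ∧ InFamily D}.ncard : ℝ)) ∧
    (∀ (n : ℕ) (F : Fin n → Type) [∀ i, Field (F i)] [∀ i, NumberField (F i)]
      [∀ i, Algebra K (F i)], (∀ i, GeneratedByCubeRoots K (F i)) →
      ∀ u : Fin n → K, (∀ i, u i ≠ 0) →
      ∀ P : 𝓞 K → Prop, (P = fun _ => True) ∨ (∃ a < 3, P = ExactlyDivisible a) →
      ∀ x : ℝ, x < c ^ (∑ i, Module.finrank K (F i)) → ∀ᶠ X : ℕ in Filter.atTop,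
        x < proportion P (fun D : 𝓞 K => ∀ i, RankZeroOver (F i) (u i * D)) X) ∧
    (0.639 : ℝ) < c := by
  obtain ⟨h1, -, -, -, -, h6⟩ := Pool.Agent.D0H69.L0F.finalAll K
  refine ⟨h1, ?_, h6⟩
  intro n F _ _ _ hF u hu P hP x hx
  choose S hS hgen using hF
  have h2 := Pool.Agent.D0H69.JTL.low_multi (K := K) (F := F) hS hgen hu (P := P) hP hx
  filter_upwards [h2] with X hX
  refine lt_of_lt_of_le hX ?_
  unfold proportion
  apply div_le_div_of_nonneg_right _ (Nat.cast_nonneg _)
  have h9 := Set.ncard_le_ncard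
    (s := {D : 𝓞 K | Algebra.norm ℤ D ≤ X ∧ InFamily D ∧ P D ∧
        ∀ i, Finite (Pool.Agent.Y696.CTK.ED (algebraMap K (F i) (u i * D))).toAffine.Point ∧
          ∀ (k : ℕ) (y : Pool.Agent.TH841.NF.D.Sha
            (Pool.Agent.Y696.CTK.ED (algebraMap K (F i) (u i * D)))), 3 ^ k • y = 0 →
            Module.finrank K (F i) • y = 0})
    (t := {D : 𝓞 K | Algebra.norm ℤ D ≤ X ∧ InFamily D ∧ P D ∧
      ∀ i, RankZeroOver (F i) (u i * D)})
    (fun D hD => ⟨hD.1, hD.2.1, hD.2.2.1, fun i => (hD.2.2.2 i).1⟩)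
    (Pool.Agent.D0H69.JTL.fin_norm X _)
  exact_mod_cast h9

end Pool.Agent.Results.MP_81dc49_nt.RanksOverKummerExtensions
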