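import Pool.Agent.D0H43.MQ.Rk
import Pool.Agent.D0H70.MQ.Selot

/-!
# Ranks of the quartic twists of `y² = x³ - x` by elements of `ℤ[i]` over the multiquadratic extensions of
# `ℚ(i)` generated by the square roots of the divisors

`K = ℚ(i)`, `E_D : y² = x³ + D x` with `D` in `𝓞 K = ℤ[i]`, ordered by the norm. Put
`c = ∏_{j ≥ 0} (1 - 2^{-(2 j + 1)}) = 0.4194...` and `prob r = c / ((2 - 1) (4 - 1) ⋯ (2 ^ r - 1))`. The
theorem is about the ranks of `E_D` over ALL the fields generated over `K` by square roots of divisors of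
`D`, at the same time: their number and their degrees (all the powers of two up to `2 ^ (n + 1)` if `D` has
`n` prime divisors and is `i` modulo `2`) are not bounded.

* For the squarefree `D` with `D = i` modulo `2` (one third of the squarefree `D`): let `g(D)` be the least
  integer with `rank E_D(F) ≤ g(D) [F : K]` for all the fields `F` generated over `K` by square roots of
  divisors of `D`, units included (for example `F = ℚ(ζ₈) = K(√i)`).  For every `R` the lower proportion
  of the `D` with `g(D) ≤ 2 R` is at least `prob 0 + ⋯ + prob R` (`41.94`, `83.88`, `97.86` percent for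
  `R = 0, 1, 2`), all the groups `E_D(F)` are finite for at least `41.94` percent, and the average of `g` is
  less than `1.53`.
* For the squarefree `D` divisible by `1 + i` (one third of the squarefree `D`): for at least the proportion
  `c` all the groups `E_D(F)`, `F` generated by square roots of divisors of `D` that are `1` modulo `2`, are
  finite; the same for all the `F` generated by square roots of odd divisors, units included, with the
  proportion `c / 2`.
* For the squarefree `D` that are not `1` modulo `2`: the same with the proportions `c` and `3 c / 4`; these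
  are `2 c / 3` (`27.96` percent) and `c / 2` of ALL the squarefree `D`.
* For the `D = 2 Δ` with `Δ` squarefree and `Δ = 1` modulo `2 + 2 i`, and each of the two square roots `i` of
  `-1`: the same as in the first item for the `F` generated by square roots of elements `t` and `(1 + i) t`,
  `t` a divisor of `D` and `1` modulo `2`.

The proof: for a divisor `t` of `D` as above, `t ≡ 1` modulo `2`, the quadratic twist of `E_D` by `K(√t)` is
`E_{D t²}`.  The Selmer groups of `1 + i` of ALL the curves `E_{D t²}` over `K` are contained in one and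
the same subgroup of `K* / K*²`, which is determined by ONE matrix of quadratic residue symbols: at a prime
divisor `π` of `D` the valuation of `D t²` is `1` or `3`, odd in both cases, and `D t²` and `D` have the
same class modulo squares.  The set of the twists is closed under the quadratic twists, modulo fourth
powers, and so an induction over towers of quadratic extensions bounds the rank over `F` by `[F : K]` times
the bound for this matrix: the same proportions for all the fields at once, no product of probabilities.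

Joint work: helper43 (method, towers, this assembly), helper70 (the descent for `1 + i ∣ D`), helper10
(descents, averages), helper98 (random symmetric completions), helper34 (the sum of the limits), helper45
(large sieve engine, proportions), helper76 (descents), and the modules of project Q4.
-/

set_option autoImplicit false

namespace Pool.Agent.Results.MP_81dc49_nt.RanksOverMultiquadraticFields

open NumberField WeierstrassCurve
open scoped Classical

/-- The curve `E_D : y² = x³ + D x`. -/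
def curve {F : Type} [Field F] (D : F) : WeierstrassCurve F := ⟨0, 0, 0, D, 0⟩

section defs

variable {K : Type} [Field K] [NumberField K]

/-- `F` is generated over `K` by finitely many square roots of elements `t` with the property `T`. -/
def GeneratedByRoots (F : Type) [Field F] [Algebra K F] (T : 𝓞 K → Prop) : Prop :=
  ∃ (n : ℕ) (x : Fin n → F), (∀ k, ∃ t : 𝓞 K, T t ∧ x k ^ 2 = algebraMap K F (t : K)) ∧
    IntermediateField.adjoin K (Set.range x) = ⊤

/-- The rank over `ℤ` of the group of points of `E_D` over the extension `F` of `K`. -/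
noncomputable def rank (F : Type) [Field F] [Algebra K F] (D : 𝓞 K) : ℕ :=
  Module.finrank ℤ (curve (algebraMap K F (D : K))).toAffine.Point

/-- For every number field `F` generated over `K` by square roots of elements with the property `T D` the
rank of `E_D(F)` is at most `g [F : K]`. -/
def Bounded (T : 𝓞 K → 𝓞 K → Prop) (D : 𝓞 K) (g : ℕ) : Prop :=
  ∀ (F : Type) [Field F] [NumberField F] [Algebra K F], GeneratedByRoots F (T D) →
    rank F D ≤ g * Module.finrank K F

/-- The least `g` with `Bounded T D g`. -/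
noncomputable def growth (T : 𝓞 K → 𝓞 K → Prop) (D : 𝓞 K) : ℕ := sInf {g : ℕ | Bounded T D g}

/-- For every number field `F` generated over `K` by square roots of elements with the property `T D` the
group `E_D(F)` is finite. -/
def AlwaysFinite (T : 𝓞 K → 𝓞 K → Prop) (D : 𝓞 K) : Prop :=
  ∀ (F : Type) [Field F] [NumberField F] [Algebra K F], GeneratedByRoots F (T D) →
    Finite (curve (algebraMap K F (D : K))).toAffine.Point

/-- `t` is a divisor of `D` and prime to `2`. -/
def OddDivisor (D t : 𝓞 K) : Prop := t ∣ D ∧ IsCoprime t 2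

/-- `t` is a divisor of `D` and `1` modulo `2`. -/
def OneDivisor (D t : 𝓞 K) : Prop := t ∣ D ∧ 2 ∣ t - 1

/-- `t = t'` or `t = (1 + i) t'` for a divisor `t'` of `D` that is `1` modulo `2`. -/
def ExtendedDivisor (i D t : 𝓞 K) : Prop := ∃ t', OneDivisor D t' ∧ (t = t' ∨ t = (1 + i) * t')

/-- `D` is squarefree and `D = i` modulo `2` for a square root `i` of `-1`. -/
def OddImaginary (D : 𝓞 K) : Prop := Squarefree D ∧ ∃ i : 𝓞 K, i ^ 2 = -1 ∧ 2 ∣ D - i

/-- `D` is squarefree and divisible by `1 + i` for a square root `i` of `-1`. -/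
def EvenNorm (D : 𝓞 K) : Prop := Squarefree D ∧ ∃ i : 𝓞 K, i ^ 2 = -1 ∧ 1 + i ∣ D

/-- `D` is squarefree and not `1` modulo `2`. -/
def NotOneModTwo (D : 𝓞 K) : Prop := Squarefree D ∧ ¬ 2 ∣ D - 1

/-- `D = 2 Δ`, `Δ` is squarefree and `Δ = 1` modulo `2 + 2 i` for a square root `i` of `-1`. -/
def TwicePrimary (D : 𝓞 K) : Prop :=
  ∃ Δ : 𝓞 K, Squarefree Δ ∧ (∃ i : 𝓞 K, i ^ 2 = -1 ∧ 2 + 2 * i ∣ Δ - 1) ∧ D = 2 * Δ

/-- The proportion, among the `D` of norm at most `X` with the property `Q`, of the `D` with the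
properties `P` and `T` (`P` implies `Q` below). -/
noncomputable def proportion (P Q T : 𝓞 K → Prop) (X : ℕ) : ℝ :=
  ({D : 𝓞 K | Algebra.norm ℤ D ≤ X ∧ P D ∧ T D}.ncard : ℝ) /
    ({D : 𝓞 K | Algebra.norm ℤ D ≤ X ∧ Q D}.ncard : ℝ)

/-- The average of the function `g` over the `D` of norm at most `X` with the property `P`. -/
noncomputable def average (P : 𝓞 K → Prop) (g : 𝓞 K → ℕ) (X : ℕ) : ℝ :=
  (∑ᶠ D ∈ {D : 𝓞 K | Algebra.norm ℤ D ≤ X ∧ P D}, (g D : ℝ)) /
    ({D : 𝓞 K | Algebra.norm ℤ D ≤ X ∧ P D}.ncard : ℝ)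

end defs

/-- `∏_{j ≥ 0} (1 - 2^{-(2 j + 1)}) / ((2 - 1) (4 - 1) ⋯ (2 ^ r - 1))`. -/
noncomputable def prob (r : ℕ) : ℝ :=
  (∏' j : ℕ, (1 - (1 / 2 : ℝ) ^ (2 * j + 1))) / ∏ j ∈ Finset.range r, ((2 : ℝ) ^ (j + 1) - 1)

/-- The property with the proportions `f` has lower proportion at least `a`. -/
def LowerProportion (f : ℕ → ℝ) (a : ℝ) : Prop := ∀ b : ℝ, b < a → ∀ᶠ X : ℕ in Filter.atTop, b < f X

section lemmas

variable {K : Type} [Field K] [NumberField K]

lemma low_mono [IsCyclotomicExtension {4} ℚ K] {P Q T T' : 𝓞 K → Prop} {l : ℝ}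
    (h : LowerProportion (proportion P Q T) l)
    (hT : ∀ D, P D → T D → T' D) : LowerProportion (proportion P Q T') l := by
  intro b hb
  obtain ⟨e, he⟩ := Pool.Agent.D0H10.Q4.Rng.exists_e K
  filter_upwards [h b hb] with X hX
  refine lt_of_lt_of_le hX ?_
  unfold proportion
  apply div_le_div_of_nonneg_right _ (Nat.cast_nonneg _)
  have h9 := Set.ncard_le_ncard (s := {D : 𝓞 K | Algebra.norm ℤ D ≤ X ∧ P D ∧ T D})
    (t := {D : 𝓞 K | Algebra.norm ℤ D ≤ X ∧ P D ∧ T' D})
    (fun D hD => ⟨hD.1, hD.2.1, hT D hD.2.1 hD.2.2⟩)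
    (Pool.Agent.D0H10.Q5.fin_K e he X _)
  exact_mod_cast h9

lemma low_of_lim [IsCyclotomicExtension {4} ℚ K] {P Q T T' : 𝓞 K → Prop} {l : ℝ}
    (h : Filter.Tendsto (proportion P Q T) Filter.atTop (nhds l))
    (hT : ∀ D, P D → T D → T' D) : LowerProportion (proportion P Q T') l :=
  low_mono (fun _ hb => h.eventually (lt_mem_nhds hb)) hT

lemma finite_of {F : Type} [Field F] [NumberField F] [Algebra K F] {D : 𝓞 K} (hD : D ≠ 0)
    (h : rank F D = 0) : Finite (curve (algebraMap K F (D : K))).toAffine.Point := by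
  have hD1 : algebraMap K F (D : K) ≠ 0 := by
    intro h
    have h1 : (D : K) = 0 := (algebraMap K F).injective (by rw [h, map_zero])
    exact hD (RingOfIntegers.ext (by simpa using h1))
  haveI : Module.Finite ℤ (curve (algebraMap K F (D : K))).toAffine.Point :=
    Pool.Agent.D0H43.RZ.mw hD1
  exact Pool.Agent.D0H43.RZ.fin_of_rank h

/-- the growth of one curve -/
lemma growth_of {T : 𝓞 K → 𝓞 K → Prop} {D : 𝓞 K} {g : ℕ} (h : Bounded T D g) :
    growth T D ≤ g ∧ Bounded T D (growth T D) :=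
  ⟨Nat.sInf_le h, Nat.sInf_mem (s := {g : ℕ | Bounded T D g}) ⟨g, h⟩⟩

lemma always_of {T : 𝓞 K → 𝓞 K → Prop} {D : 𝓞 K} (hD : D ≠ 0) (h : Bounded T D 0) :
    AlwaysFinite T D := by
  intro F _ _ _ hF
  apply finite_of hD
  have h1 := h F hF
  rw [zero_mul] at h1
  exact Nat.le_zero.1 h1

end lemmas

theorem result (K : Type) [Field K] [NumberField K] [IsCyclotomicExtension {4} ℚ K] :
    ((∀ D : 𝓞 K, OddImaginary D → Bounded OddDivisor D (growth OddDivisor D)) ∧
      (∀ R : ℕ, LowerProportion (proportion (K := K) OddImaginary OddImaginary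
        fun D => growth OddDivisor D ≤ 2 * R) (∑ r ∈ Finset.range (R + 1), prob r)) ∧
      LowerProportion (proportion (K := K) OddImaginary OddImaginary (AlwaysFinite OddDivisor))
        (prob 0) ∧
      (∀ᶠ X : ℕ in Filter.atTop, average (K := K) OddImaginary (growth OddDivisor) X < 1.53)) ∧
    (LowerProportion (proportion (K := K) EvenNorm EvenNorm (AlwaysFinite OneDivisor)) (prob 0) ∧
      LowerProportion (proportion (K := K) EvenNorm EvenNorm (AlwaysFinite OddDivisor))
        (1 / 2 * prob 0)) ∧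
    (LowerProportion (proportion (K := K) NotOneModTwo NotOneModTwo (AlwaysFinite OneDivisor))
        (prob 0) ∧
      LowerProportion (proportion (K := K) NotOneModTwo NotOneModTwo (AlwaysFinite OddDivisor))
        (3 / 4 * prob 0) ∧
      LowerProportion (proportion (K := K) NotOneModTwo Squarefree (AlwaysFinite OneDivisor))
        (2 / 3 * prob 0) ∧
      LowerProportion (proportion (K := K) NotOneModTwo Squarefree (AlwaysFinite OddDivisor))
        (1 / 2 * prob 0)) ∧
    (∀ i : 𝓞 K, i ^ 2 = -1 →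
      (∀ D : 𝓞 K, TwicePrimary D →
        Bounded (ExtendedDivisor i) D (growth (ExtendedDivisor i) D)) ∧
      (∀ R : ℕ, LowerProportion (proportion (K := K) TwicePrimary TwicePrimary
        fun D => growth (ExtendedDivisor i) D ≤ 2 * R) (∑ r ∈ Finset.range (R + 1), prob r)) ∧
      LowerProportion (proportion (K := K) TwicePrimary TwicePrimary
        (AlwaysFinite (ExtendedDivisor i))) (prob 0) ∧
      (∀ᶠ X : ℕ in Filter.atTop,
        average (K := K) TwicePrimary (growth (ExtendedDivisor i)) X < 1.53)) ∧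
    (0.4194 ≤ prob 0 ∧ 0.8388 ≤ ∑ r ∈ Finset.range 2, prob r ∧
      0.9786 ≤ ∑ r ∈ Finset.range 3, prob r) := by
  obtain ⟨e, he⟩ := Pool.Agent.D0H10.Q4.Rng.exists_e K
  obtain ⟨i₀, hi₀⟩ : ∃ i : K, i ^ 2 = -1 := by
    refine ⟨((e H385.im1 : 𝓞 K) : K), ?_⟩
    have h1 : (e H385.im1) ^ 2 = -1 := by
      rw [← map_pow, show (H385.im1 : H385.ZI) ^ 2 = -1 by decide, map_neg, map_one]
    have h2 := congrArg (fun x : 𝓞 K => (x : K)) h1
    simpa using h2
  have e0 : ∑ r ∈ Finset.range (0 + 1), prob r = prob 0 := by simp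
  obtain ⟨s1, s2, s3, -⟩ := Pool.Agent.D0H10.Q5.sum_vals
  have hc := Pool.Agent.D0H10.Q5.cc_ge
  obtain ⟨f1, -, -, -, -⟩ := Pool.Agent.D0H10.Q5.finS Pool.Agent.D0H98.Q5.la2 K i₀ hi₀
  have ne1 : ∀ D : 𝓞 K, OddImaginary D → D ≠ 0 := fun D h => h.1.ne_zero
  have ne4 : ∀ D : 𝓞 K, TwicePrimary D → D ≠ 0 := by
    rintro D ⟨Δ, h1, -, rfl⟩
    exact mul_ne_zero two_ne_zero h1.ne_zero
  have main : ∀ (P : 𝓞 K → Prop) (_ : P = OddImaginary ∨ P = TwicePrimary)
      (T : 𝓞 K → 𝓞 K → Prop)
      (_ : ∀ D, P D → ∀ r : ℕ,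
        (Pool.Agent.D0H10.Q5.Inf.killed i₀ (D : K)).ncard = 2 ^ r → Bounded T D (2 * r)),
      (∀ D : 𝓞 K, P D → Bounded T D (growth T D)) ∧
      (∀ R : ℕ, LowerProportion (proportion (K := K) P P
        fun D => growth T D ≤ 2 * R) (∑ r ∈ Finset.range (R + 1), prob r)) ∧
      LowerProportion (proportion (K := K) P P (AlwaysFinite T)) (prob 0) ∧
      (∀ᶠ X : ℕ in Filter.atTop, average (K := K) P (growth T) X < 1.53) := by
    intro P hP T hr
    have hfam : ∀ D : 𝓞 K, P D → Pool.Agent.D0H10.Q4.FamQ D := by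
      intro D hD
      rcases hP with rfl | rfl
      · exact Or.inl hD
      · exact Or.inr hD
    have hne : ∀ D : 𝓞 K, P D → D ≠ 0 := by
      intro D hD
      rcases hP with rfl | rfl
      · exact ne1 D hD
      · exact ne4 D hD
    have hb : ∀ D : 𝓞 K, P D → Bounded T D (growth T D) := by
      intro D hD
      obtain ⟨⟨r, h1, -, -⟩, -, -⟩ := f1 D (hfam D hD)
      exact (growth_of (hr D hD r h1)).2
    obtain ⟨h1, h2⟩ := Pool.Agent.D0H43.MQ.core2 Pool.Agent.D0H98.Q5.la2
      Pool.Agent.D0H34.Q5.sum1 K i₀ hi₀ P hP (growth T)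
      (fun D hD r hk => (growth_of (hr D hD r hk)).1)
    refine ⟨hb, h1, ?_, h2⟩
    rw [← e0]
    refine low_mono (h1 0) fun D hD h3 => ?_
    have h3' : growth T D ≤ 2 * 0 := h3
    refine always_of (hne D hD) ?_
    have h4 := hb D hD
    rwa [show growth T D = 0 by omega] at h4
  have hp0 : prob 0 = Pool.Agent.D0H10.Q4.cc2 := by
    unfold prob
    rw [Finset.range_zero, Finset.prod_empty, div_one]
    rfl
  have one : ∀ D : 𝓞 K, NotOneModTwo D → Pool.Agent.D0H10.Q4.FinT D → AlwaysFinite OneDivisor D := by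
    intro D hD hT F _ _ _ hF
    have h := (Pool.Agent.D0H43.MQ.pkN1 Pool.Agent.D0H10.Q4.bd Pool.Agent.D0H43.Q4.P.bo hD hT).fin
      Pool.Agent.D0H70.MQ.selot F hF 1 ⟨one_dvd _, by rw [sub_self]; exact dvd_zero _⟩
    rw [one_pow, mul_one] at h
    exact h
  have odd : ∀ D : 𝓞 K, NotOneModTwo D → Pool.Agent.D0H43.JQ.Both D → AlwaysFinite OddDivisor D := by
    intro D hD hT F _ _ _ hF
    have h := (Pool.Agent.D0H43.MQ.pkN2 Pool.Agent.D0H10.Q4.bd Pool.Agent.D0H43.Q4.P.bo hD hT.1
      hT.2).fin Pool.Agent.D0H70.MQ.selot F hF 1 ⟨one_dvd _, isCoprime_one_left⟩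
    rw [one_pow, mul_one] at h
    exact h
  have hev : ∀ D : 𝓞 K, EvenNorm D → NotOneModTwo D := by
    intro D hD
    obtain ⟨D, rfl⟩ := e.surjective D
    obtain ⟨p, hp, Δ, hΔ, h⟩ := (Pool.Agent.D0H43.Q4.P.evnK e D).1 hD
    exact (Pool.Agent.D0H43.Q4.P.notOneK e D).2
      ⟨p, (by decide : Pool.Agent.D0H43.Q4.P.S5 ⊆ Pool.Agent.D0H43.Q4.P.S4) hp, Δ, hΔ, h⟩
  obtain ⟨-, j1, -, j2, -, j3, -⟩ := Pool.Agent.D0H43.JQ.joint K
  obtain ⟨-, -, -, k1, -, k3⟩ := Pool.Agent.D0H43.Q4.P.finalR Pool.Agent.D0H43.Q4.P.all6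
    Pool.Agent.D0H10.Q4.sqfK K
  have k2 := (Pool.Agent.D0H43.Q4.P.all6.mono (S' := Pool.Agent.D0H43.Q4.P.S4) (by decide)).lim
    ⟨(1, 0), by decide⟩ e he Pool.Agent.D0H43.Q4.P.NotOne (Pool.Agent.D0H43.Q4.P.notOneK e)
  refine ⟨?_, ⟨?_, ?_⟩, ⟨?_, ?_, ?_, ?_⟩, fun i hi => ?_, ?_, ?_, ?_⟩
  · refine main OddImaginary (Or.inl rfl) OddDivisor fun D hD r hr F _ _ _ hF => ?_
    refine Pool.Agent.D0H43.MQ.rkOverA hi₀ hD hr F ?_
    obtain ⟨n, x, hx, hg⟩ := hF
    refine ⟨n, x, fun k => ?_, hg⟩
    obtain ⟨t, ht, h1⟩ := hx k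
    exact ⟨t, ht.1, h1⟩
  · rw [hp0]
    exact low_of_lim k1 fun D hD hB => one D (hev D hD) hB
  · rw [hp0]
    exact low_of_lim j1 fun D hD hB => odd D (hev D hD) hB
  · rw [hp0]
    exact low_of_lim k2 fun D hD hB => one D hD hB
  · rw [hp0]
    exact low_of_lim j2 fun D hD hB => odd D hD hB
  · rw [hp0]
    exact low_of_lim k3 fun D hD hB => one D hD hB
  · rw [hp0]
    exact low_of_lim j3 fun D hD hB => odd D hD hB
  · refine main TwicePrimary (Or.inr rfl) (ExtendedDivisor i) fun D hD r hr F _ _ _ hF => ?_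
    refine Pool.Agent.D0H43.MQ.rkOverD hi₀ i hi hD hr F ?_
    obtain ⟨n, x, hx, hg⟩ := hF
    refine ⟨n, x, fun k => ?_, hg⟩
    obtain ⟨t, ⟨t', ht, h2⟩, h1⟩ := hx k
    exact ⟨t, ⟨t', ht.1, ht.2, h2⟩, h1⟩
  · have h4 : Pool.Agent.D0H10.Q5.prob 0 = Pool.Agent.D0H10.Q5.cc := by
      rw [← s1]; simp
    show (0.4194 : ℝ) ≤ Pool.Agent.D0H10.Q5.prob 0
    rw [h4]
    exact hc
  · show (0.8388 : ℝ) ≤ ∑ r ∈ Finset.range 2, Pool.Agent.D0H10.Q5.prob r
    rw [s2]
    linarith
  · show (0.9786 : ℝ) ≤ ∑ r ∈ Finset.range 3, Pool.Agent.D0H10.Q5.prob r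
    rw [s3]
    linarith

end Pool.Agent.Results.MP_81dc49_nt.RanksOverMultiquadraticFields
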